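import Pool.Agent.R379.NS.Core

set_option autoImplicit false

namespace Pool.Agent.R379.NS

open Finsupp

/-- data: a winner `W a` in every class, minimal for the weights `w'` -/
structure Win {κ : Type} (k0 : κ) (m : ℕ) (w w' : κ → ℕ) (W : (κ →₀ ℕ) → (κ →₀ ℕ)) : Prop where
  hm : 0 < m
  hw0 : w k0 = m
  hw0' : w' k0 = m
  hpure : ∀ a, W a k0 = 0
  hle : ∀ a, ∃ t, phi w a = phi w (W a) + t * m
  hcong : ∀ a b, phi w a ≡ phi w b [MOD m] → W a = W b
  hres : ∀ a, phi w a ≡ phi w' a [MOD m]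
  hlt : ∀ b, b k0 = 0 → b ≠ W b → phi w' (W b) < phi w' b

section
variable {κ : Type} {k0 : κ} {m : ℕ} {w w' : κ → ℕ} {W : (κ →₀ ℕ) → (κ →₀ ℕ)}

/-- minimal non-winners -/
def Bs (k0 : κ) (W : (κ →₀ ℕ) → (κ →₀ ℕ)) : Set (κ →₀ ℕ) :=
  {β | β k0 = 0 ∧ β ≠ W β ∧ ∀ γ, γ ≤ β → γ ≠ β → γ = W γ}

theorem Win.W_of_add (h : Win k0 m w w' W) (a b : κ →₀ ℕ) (t : ℕ)
    (e : phi w a = phi w b + t * m) : W a = W b := by
  apply h.hcong
  rw [e]
  unfold Nat.ModEq
  simp

theorem Win.W_W (h : Win k0 m w w' W) (a : κ →₀ ℕ) : W (W a) = W a := by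
  obtain ⟨t, ht⟩ := h.hle a
  exact (h.W_of_add a (W a) t ht).symm

theorem Win.W_erase (h : Win k0 m w w' W) (a : κ →₀ ℕ) : W (a.erase k0) = W a := by
  symm
  apply h.W_of_add _ _ (a k0)
  rw [phi_erase w k0 a, h.hw0]; ring

/-- if `a` is a winner then it is the unique factorization of its value -/
theorem Win.uniq (h : Win k0 m w w' W) (a b : κ →₀ ℕ) (ha : a = W a)
    (e : phi w' a = phi w' b) : a = b := by
  have ha0 : a k0 = 0 := by rw [ha]; exact h.hpure a
  have hW : W a = W b := by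
    apply h.hcong
    exact (h.hres a).trans (by rw [e]; exact (h.hres b).symm)
  have h1 : W (b.erase k0) = a := by rw [h.W_erase, ← hW, ← ha]
  have hb0 : (b.erase k0) k0 = 0 := by simp
  by_cases hc : b.erase k0 = a
  · have h2 := phi_erase w' k0 b
    rw [hc, h.hw0', e] at h2
    have h3 : b k0 * m = 0 := by omega
    have h4 : b k0 = 0 := by
      rcases Nat.mul_eq_zero.1 h3 with h5 | h5
      · exact h5
      · exact absurd h5 h.hm.ne'
    rw [← hc]
    exact Finsupp.erase_of_notMem_support (by simp [h4])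
  · have h2 := h.hlt (b.erase k0) hb0 (by rw [h1]; exact hc)
    rw [h1] at h2
    have h3 := phi_erase w' k0 b
    omega

theorem exists_Bs (a : κ →₀ ℕ) (ha0 : a k0 = 0) (ha : a ≠ W a) :
    ∃ β ∈ Bs k0 W, β ≤ a := by
  classical
  have hfin : {γ : κ →₀ ℕ | γ ≤ a ∧ γ ≠ W γ}.Finite :=
    (Set.finite_Iic a).subset (fun γ hγ => hγ.1)
  have hne : {γ : κ →₀ ℕ | γ ≤ a ∧ γ ≠ W γ}.Nonempty := ⟨a, le_refl a, ha⟩
  obtain ⟨β, hβ⟩ := hfin.exists_minimal hne
  refine ⟨β, ⟨?_, hβ.1.2, ?_⟩, hβ.1.1⟩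
  · have := hβ.1.1 k0
    omega
  · intro γ hγ hne
    by_contra hc
    have hmem : γ ∈ {γ : κ →₀ ℕ | γ ≤ a ∧ γ ≠ W γ} := ⟨hγ.trans hβ.1.1, hc⟩
    exact hne (le_antisymm hγ (hβ.2 hmem hγ))

/-- normal form -/
noncomputable def nf (k0 : κ) (m : ℕ) (w : κ → ℕ) (W : (κ →₀ ℕ) → (κ →₀ ℕ)) (a : κ →₀ ℕ) :
    κ →₀ ℕ := W a + single k0 ((phi w a - phi w (W a)) / m)

theorem Win.phi_nf (h : Win k0 m w w' W) (a : κ →₀ ℕ) : phi w (nf k0 m w W a) = phi w a := by
  obtain ⟨t, ht⟩ := h.hle a
  unfold nf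
  rw [map_add, phi_single, h.hw0, ht]
  rw [Nat.add_sub_cancel_left, Nat.mul_div_cancel _ h.hm]

theorem Win.nf_congr (h : Win k0 m w w' W) (a b : κ →₀ ℕ) (e : phi w a = phi w b) :
    nf k0 m w W a = nf k0 m w W b := by
  unfold nf
  rw [h.hcong a b (by rw [e]), e]

theorem Win.nf_erase (h : Win k0 m w w' W) (a : κ →₀ ℕ) :
    (nf k0 m w W a).erase k0 = W a := by
  unfold nf
  rw [Finsupp.erase_add, Finsupp.erase_single, add_zero]
  exact Finsupp.erase_of_notMem_support (by simp [h.hpure a])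

theorem Win.reduce (h : Win k0 m w w' W) : ∀ (n : ℕ) (a : κ →₀ ℕ), phi w' (a.erase k0) = n →
    addConGen (fun x y => (x, y) ∈ (fun β => (β, nf k0 m w W β)) '' (Bs k0 W)) a
      (nf k0 m w W a) := by
  intro n
  induction n using Nat.strong_induction_on with
  | _ n ih =>
    intro a han
    by_cases hc : a.erase k0 = W (a.erase k0)
    · have h1 : nf k0 m w W a = a := by
        unfold nf
        rw [h.W_erase] at hc
        rw [← hc]
        conv_rhs => rw [← Finsupp.erase_add_single k0 a]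
        rw [phi_erase w k0 a, h.hw0, Nat.add_sub_cancel, Nat.mul_div_cancel _ h.hm]
      rw [h1]
      exact AddCon.refl _ _
    · obtain ⟨β, hβ, hle⟩ := exists_Bs (k0 := k0) (a.erase k0) Finsupp.erase_same hc
      obtain ⟨γ, hγ⟩ := exists_add_of_le hle
      -- a = β + (γ + single)
      set δ := γ + single k0 (a k0) with hδ
      have ha : a = β + δ := by
        rw [hδ, ← add_assoc, ← hγ, Finsupp.erase_add_single]
      set a' := nf k0 m w W β + δ with ha'
      have hrel : addConGen (fun x y => (x, y) ∈ (fun β => (β, nf k0 m w W β)) '' (Bs k0 W))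
          a a' := by
        rw [ha, ha']
        exact AddCon.add _ (AddConGen.Rel.of _ _ ⟨β, hβ, rfl⟩) (AddCon.refl _ _)
      have hphi : phi w a' = phi w a := by
        rw [ha', map_add, h.phi_nf, ← map_add, ← ha]
      have hγ0 : γ k0 = 0 := by
        have h1 : (a.erase k0) k0 = (β + γ) k0 := by rw [hγ]
        simp at h1
        omega
      have hδe : δ.erase k0 = γ := by
        rw [hδ, Finsupp.erase_add, Finsupp.erase_single, add_zero]
        exact Finsupp.erase_of_notMem_support (by simp [hγ0])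
      have hlt : phi w' (a'.erase k0) < n := by
        rw [ha', Finsupp.erase_add, h.nf_erase, hδe, map_add, ← han, hγ, map_add]
        have := h.hlt β hβ.1 hβ.2.1
        omega
      have := ih _ hlt a' rfl
      rw [h.nf_congr a' a hphi] at this
      exact AddCon.trans _ hrel this

theorem Win.isPres (h : Win k0 m w w' W) :
    IsPres w ((fun β => (β, nf k0 m w W β)) '' (Bs k0 W)) := by
  unfold IsPres
  apply le_antisymm
  · rw [AddCon.addConGen_le]
    rintro x y ⟨β, _, he⟩
    simp only [Prod.mk.injEq] at he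
    obtain ⟨rfl, rfl⟩ := he
    rw [AddCon.ker_rel, h.phi_nf]
  · intro x y hxy
    rw [AddCon.ker_rel] at hxy
    have h1 := h.reduce _ x rfl
    have h2 := h.reduce _ y rfl
    rw [← h.nf_congr x y hxy] at h2
    exact AddCon.trans _ h1 (AddCon.symm _ h2)

theorem Win.Bs_le (h : Win k0 m w w' W) (β : κ →₀ ℕ) (hβ : β ∈ Bs k0 W) (i : κ) :
    β i ≤ m := by
  by_contra hc
  push Not at hc
  have h1 : ∀ k : ℕ, k ≤ m → single i k = W (single i k) := by
    intro k hk
    apply hβ.2.2
    · rw [Finsupp.single_le_iff]; omega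
    · intro he
      have : β i = k := by rw [← he]; simp
      omega
  have h2 : ∃ x ∈ Finset.range (m + 1), ∃ y ∈ Finset.range (m + 1), x ≠ y ∧
      phi w (single i x) % m = phi w (single i y) % m := by
    apply Finset.exists_ne_map_eq_of_card_lt_of_maps_to (t := Finset.range m)
    · simp
    · intro x _
      simp [Nat.mod_lt _ h.hm]
  obtain ⟨x, hx, y, hy, hxy, he⟩ := h2
  rw [Finset.mem_range] at hx hy
  have h3 := h.hcong _ _ he
  rw [← h1 x (by omega), ← h1 y (by omega)] at h3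
  apply hxy
  have : (single i x : κ →₀ ℕ) i = (single i y : κ →₀ ℕ) i := by rw [h3]
  simpa using this

theorem Win.Bs_finite [Finite κ] (h : Win k0 m w w' W) : (Bs k0 W).Finite := by
  classical
  have := Fintype.ofFinite κ
  apply (Set.finite_Iic (Finsupp.equivFunOnFinite.symm (fun _ : κ => m))).subset
  intro β hβ
  rw [Set.mem_Iic]
  intro i
  simpa using h.Bs_le β hβ i

theorem Win.Bs_card [Fintype κ] (h : Win k0 m w w' W) :
    (Bs k0 W).ncard ≤ (m + 1) ^ (Fintype.card κ) := by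
  classical
  have hsub : Bs k0 W ⊆ (fun f : κ → Fin (m + 1) =>
      (Finsupp.equivFunOnFinite.symm (fun i => (f i : ℕ)) : κ →₀ ℕ)) '' Set.univ := by
    intro β hβ
    refine ⟨fun i => ⟨β i, by have := h.Bs_le β hβ i; omega⟩, trivial, ?_⟩
    ext i
    simp
  refine (Set.ncard_le_ncard hsub (Set.toFinite _)).trans ?_
  refine (Set.ncard_image_le (Set.toFinite _)).trans ?_
  rw [Set.ncard_univ, Nat.card_eq_fintype_card]
  simp

/-- lower bound for the number of relations for the weights `w'` -/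
theorem Win.lower [Finite κ] (h : Win k0 m w w' W) (ρ : Set ((κ →₀ ℕ) × (κ →₀ ℕ)))
    (hf : ρ.Finite) (hρ : IsPres w' ρ) : (Bs k0 W).ncard ≤ ρ.ncard := by
  classical
  by_contra hc
  push Not at hc
  have : Fintype (Bs k0 W) := (h.Bs_finite).fintype
  have : Fintype ρ := hf.fintype
  -- the value function
  let X : (Bs k0 W → ℚ) → (κ →₀ ℕ) → ℚ := fun x a => if ha : a ∈ Bs k0 W then x ⟨a, ha⟩ else 0
  let L : (Bs k0 W → ℚ) →ₗ[ℚ] (ρ → ℚ) :=
    { toFun := fun x r => X x r.1.1 - X x r.1.2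
      map_add' := by
        intro x y; ext r
        simp only [X, Pi.add_apply]
        split_ifs <;> ring
      map_smul' := by
        intro c x; ext r
        simp only [X, Pi.smul_apply, smul_eq_mul, RingHom.id_apply]
        split_ifs <;> ring }
  have hker : LinearMap.ker L ≠ ⊥ := by
    apply LinearMap.ker_ne_bot_of_finrank_lt
    rw [Module.finrank_fintype_fun_eq_card, Module.finrank_fintype_fun_eq_card]
    rw [Set.ncard_eq_toFinset_card', Set.ncard_eq_toFinset_card'] at hc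
    simpa [Set.toFinset_card] using hc
  obtain ⟨x, hx, hx0⟩ := (Submodule.ne_bot_iff _).1 hker
  rw [LinearMap.mem_ker] at hx
  -- the congruence
  let c : AddCon (κ →₀ ℕ) :=
    { r := fun a b => ∀ z, X x (a + z) = X x (b + z)
      iseqv := ⟨fun _ _ => rfl, fun hab z => (hab z).symm, fun hab hbc z => (hab z).trans (hbc z)⟩
      add' := by
        intro a b a' b' hab hab' z
        rw [add_assoc, hab, ← add_assoc, add_comm b a', add_assoc, hab', ← add_assoc,
          add_comm b' b] }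
  have key : ∀ u v : κ →₀ ℕ, phi w' u = phi w' v → u ≠ v → ∀ z, z ≠ 0 → u + z ∉ Bs k0 W := by
    intro u v huv hne z hz hmem
    have hu : u = W u := hmem.2.2 u (by simp) (by simpa using hz)
    exact hne (h.uniq u v hu huv)
  have hle : addConGen (fun a b => (a, b) ∈ ρ) ≤ c := by
    rw [AddCon.addConGen_le]
    intro u v huv z
    have hphi : phi w' u = phi w' v := by
      have : AddCon.ker (phi w') u v := by
        rw [← hρ]; exact AddConGen.Rel.of _ _ huv
      exact (AddCon.ker_rel _).1 this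
    by_cases hne : u = v
    · rw [hne]
    by_cases hz : z = 0
    · subst hz
      have h1 := congrFun hx ⟨(u, v), huv⟩
      simp only [L, LinearMap.coe_mk, AddHom.coe_mk, Pi.zero_apply] at h1
      simp only [add_zero]
      linarith
    · have h1 := key u v hphi hne z hz
      have h2 := key v u hphi.symm (Ne.symm hne) z hz
      simp only [X]
      rw [dif_neg h1, dif_neg h2]
  rw [hρ] at hle
  apply hx0
  funext β
  have h1 : phi w' (β : κ →₀ ℕ) = phi w' (W β + single k0 ((phi w' (β : κ →₀ ℕ) - phi w' (W β)) / m)) := by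
    have hlt := h.hlt β β.2.1 β.2.2.1
    have hmod : phi w' (W (β : κ →₀ ℕ)) ≡ phi w' (β : κ →₀ ℕ) [MOD m] := by
      refine (h.hres _).symm.trans (Nat.ModEq.trans ?_ (h.hres _))
      obtain ⟨t, ht⟩ := h.hle β
      rw [ht]
      unfold Nat.ModEq; simp
    have hd := (Nat.modEq_iff_dvd' hlt.le).1 hmod
    rw [map_add, phi_single, h.hw0', Nat.div_mul_cancel hd]
    omega
  have h2 := hle ((AddCon.ker_rel _).2 h1) 0
  simp only [add_zero] at h2
  have h3 : (W (β : κ →₀ ℕ) + single k0 ((phi w' (β : κ →₀ ℕ) - phi w' (W β)) / m)) ∉ Bs k0 W := by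
    intro hmem
    have h4 := hmem.1
    rw [Finsupp.add_apply, h.hpure, zero_add, Finsupp.single_eq_same] at h4
    rw [h4, Finsupp.single_zero, add_zero] at hmem
    exact hmem.2.1 (h.W_W _).symm
  simp only [X] at h2
  rw [dif_neg h3, dif_pos β.2] at h2
  simpa using h2

end

end Pool.Agent.R379.NS
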