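import Pool.Agent.R379.NS.Defs

set_option autoImplicit false

namespace Pool.Agent.R379.NS

open Finsupp

section basics
variable {κ : Type} (w : κ → ℕ)

theorem phi_single (i : κ) (k : ℕ) : phi w (single i k) = k * w i := by
  simp [phi, linearCombination_single]

theorem phi_erase (k0 : κ) (a : κ →₀ ℕ) : phi w a = a k0 * w k0 + phi w (a.erase k0) := by
  conv_lhs => rw [← Finsupp.single_add_erase k0 a]
  rw [map_add, phi_single]

theorem phi_congr_pure (w w' : κ → ℕ) (k0 : κ) (h : ∀ i, i ≠ k0 → w i = w' i) (a : κ →₀ ℕ)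
    (ha : a k0 = 0) : phi w a = phi w' a := by
  simp only [phi, LinearMap.toAddMonoidHom_coe, linearCombination_apply]
  apply Finsupp.sum_congr
  intro i hi
  rw [h i]
  rintro rfl
  exact (Finsupp.mem_support_iff.1 hi) ha

theorem phi_linear (u v : κ → ℕ) (c d : ℕ) (a : κ →₀ ℕ) :
    phi (fun i => c * u i + d * v i) a = c * phi u a + d * phi v a := by
  simp only [phi, LinearMap.toAddMonoidHom_coe, linearCombination_apply, Finsupp.sum,
    Finset.mul_sum, ← Finset.sum_add_distrib, smul_eq_mul]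
  apply Finset.sum_congr rfl
  intro i _
  ring

theorem phi_mono {a b : κ →₀ ℕ} (h : a ≤ b) : phi w a ≤ phi w b := by
  obtain ⟨c, rfl⟩ := exists_add_of_le h
  rw [map_add]; omega

theorem le_phi (a : κ →₀ ℕ) (i : κ) : a i * w i ≤ phi w a := by
  rw [phi_erase w i a]; omega

end basics

/-! ### etaW -/

section etaW
variable {κ : Type} (w : κ → ℕ)

theorem exists_minpres (ρ : Set ((κ →₀ ℕ) × (κ →₀ ℕ))) (hf : ρ.Finite) (h : IsPres w ρ) :
    ∃ ρ', ρ' ⊆ ρ ∧ IsMinPres w ρ' := by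
  have hfin : {σ : Set ((κ →₀ ℕ) × (κ →₀ ℕ)) | σ ⊆ ρ ∧ IsPres w σ}.Finite :=
    (hf.finite_subsets).subset (fun σ hσ => hσ.1)
  have hne : {σ : Set ((κ →₀ ℕ) × (κ →₀ ℕ)) | σ ⊆ ρ ∧ IsPres w σ}.Nonempty :=
    ⟨ρ, subset_rfl, h⟩
  obtain ⟨σ, hmin⟩ := hfin.exists_minimal hne
  refine ⟨σ, hmin.1.1, hmin.1.2, fun τ hτ hp => ?_⟩
  have hmem : τ ∈ {σ : Set ((κ →₀ ℕ) × (κ →₀ ℕ)) | σ ⊆ ρ ∧ IsPres w σ} :=
    ⟨hτ.1.trans hmin.1.1, hp⟩
  exact hτ.2 (hmin.2 hmem hτ.1)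

theorem etaW_le (ρ : Set ((κ →₀ ℕ) × (κ →₀ ℕ))) (hf : ρ.Finite) (h : IsPres w ρ) :
    etaW w ≤ ρ.ncard := by
  obtain ⟨σ, hσ, hm⟩ := exists_minpres w ρ hf h
  have hmem : σ.ncard ∈ {k | ∃ ρ : Set ((κ →₀ ℕ) × (κ →₀ ℕ)),
      IsMinPres w ρ ∧ ρ.Finite ∧ ρ.ncard = k} := ⟨σ, hm, hf.subset hσ, rfl⟩
  exact (Nat.sInf_le hmem).trans (Set.ncard_le_ncard hσ hf)

theorem le_etaW (k : ℕ) (hex : ∃ ρ : Set ((κ →₀ ℕ) × (κ →₀ ℕ)), ρ.Finite ∧ IsPres w ρ)
    (h : ∀ ρ : Set ((κ →₀ ℕ) × (κ →₀ ℕ)), ρ.Finite → IsPres w ρ → k ≤ ρ.ncard) :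
    k ≤ etaW w := by
  apply le_csInf
  · obtain ⟨ρ, hf, hp⟩ := hex
    obtain ⟨σ, hσ, hm⟩ := exists_minpres w ρ hf hp
    exact ⟨_, σ, hm, hf.subset hσ, rfl⟩
  · rintro _ ⟨ρ, hm, hf, rfl⟩
    exact h ρ hf hm.1

theorem phi_domCongr {κ' : Type} (f : κ ≃ κ') (w' : κ' → ℕ) (h : ∀ i, w' (f i) = w i)
    (a : κ →₀ ℕ) : phi w' (Finsupp.domCongr f a) = phi w a := by
  simp only [phi, LinearMap.toAddMonoidHom_coe, linearCombination_apply, Finsupp.domCongr_apply]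
  rw [Finsupp.sum_equivMapDomain]
  apply Finsupp.sum_congr
  intro i _
  rw [h]

theorem isPres_transfer {κ' : Type} (f : κ ≃ κ') (w' : κ' → ℕ) (h : ∀ i, w' (f i) = w i)
    (ρ : Set ((κ →₀ ℕ) × (κ →₀ ℕ))) (hρ : IsPres w ρ) :
    IsPres w' ((Prod.map (Finsupp.domCongr f) (Finsupp.domCongr f)) '' ρ) := by
  unfold IsPres at *
  apply le_antisymm
  · rw [AddCon.addConGen_le]
    rintro x y ⟨⟨a, b⟩, hab, he⟩
    simp only [Prod.map, Prod.mk.injEq] at he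
    obtain ⟨rfl, rfl⟩ := he
    rw [AddCon.ker_rel]
    rw [phi_domCongr w f w' h, phi_domCongr w f w' h]
    have : AddCon.ker (phi w) a b := by
      rw [← hρ]
      exact AddConGen.Rel.of _ _ hab
    exact (AddCon.ker_rel _).1 this
  · intro x y hxy
    rw [AddCon.ker_rel] at hxy
    obtain ⟨a, rfl⟩ := (Finsupp.domCongr f (M := ℕ)).surjective x
    obtain ⟨b, rfl⟩ := (Finsupp.domCongr f (M := ℕ)).surjective y
    rw [phi_domCongr w f w' h, phi_domCongr w f w' h] at hxy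
    have h1 : addConGen (fun a b => (a, b) ∈ ρ) a b := by
      rw [hρ]; exact (AddCon.ker_rel _).2 hxy
    have h2 : addConGen (fun a b => (a, b) ∈ ρ) ≤
        AddCon.comap (Finsupp.domCongr f (M := ℕ)) (fun x y => map_add _ x y)
          (addConGen (fun x y => (x, y) ∈
            (Prod.map (Finsupp.domCongr f) (Finsupp.domCongr f)) '' ρ)) := by
      rw [AddCon.addConGen_le]
      intro x y hxy
      rw [AddCon.comap_rel]
      exact AddConGen.Rel.of _ _ ⟨(x, y), hxy, rfl⟩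
    have := h2 h1
    rwa [AddCon.comap_rel] at this

end etaW

end Pool.Agent.R379.NS
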