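import Mathlib

set_option autoImplicit false

/-! Numerical semigroups, factorizations, presentations. -/

namespace Pool.Agent.R379.NS

/-- a numerical semigroup: a submonoid of the naturals with finite complement -/
def IsNumSgp (S : AddSubmonoid ℕ) : Prop := ((S : Set ℕ)ᶜ).Finite

/-- the unique minimal generating set: the nonzero elements of `S` that are not a sum of two
nonzero elements of `S` -/
def gens (S : AddSubmonoid ℕ) : Set ℕ :=
  {n | n ∈ S ∧ n ≠ 0 ∧ ∀ a ∈ S, ∀ b ∈ S, a + b = n → a = 0 ∨ b = 0}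

/-- embedding dimension -/
noncomputable def embDim (S : AddSubmonoid ℕ) : ℕ := (gens S).ncard

/-- multiplicity: the least nonzero element -/
noncomputable def mult (S : AddSubmonoid ℕ) : ℕ := sInf {n | n ∈ S ∧ n ≠ 0}

/-- the Apery set with respect to the multiplicity -/
def Ap (S : AddSubmonoid ℕ) : Set ℕ := {n | n ∈ S ∧ ∀ t ∈ S, t + mult S ≠ n}

/-- the map `a ↦ sum of a_i w_i` -/
noncomputable def phi {κ : Type} (w : κ → ℕ) : (κ →₀ ℕ) →+ ℕ :=
  (Finsupp.linearCombination ℕ w).toAddMonoidHom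

/-- `ρ` generates the kernel congruence of `phi w` -/
def IsPres {κ : Type} (w : κ → ℕ) (ρ : Set ((κ →₀ ℕ) × (κ →₀ ℕ))) : Prop :=
  addConGen (fun a b => (a, b) ∈ ρ) = AddCon.ker (phi w)

/-- `ρ` is a generating set of the kernel congruence that is minimal for inclusion -/
def IsMinPres {κ : Type} (w : κ → ℕ) (ρ : Set ((κ →₀ ℕ) × (κ →₀ ℕ))) : Prop :=
  IsPres w ρ ∧ ∀ ρ' : Set ((κ →₀ ℕ) × (κ →₀ ℕ)), ρ' ⊂ ρ → ¬ IsPres w ρ'

/-- the (least) cardinality of a minimal presentation -/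
noncomputable def etaW {κ : Type} (w : κ → ℕ) : ℕ :=
  sInf {k | ∃ ρ : Set ((κ →₀ ℕ) × (κ →₀ ℕ)), IsMinPres w ρ ∧ ρ.Finite ∧ ρ.ncard = k}

/-- the cardinality of a minimal presentation of `S` -/
noncomputable def eta (S : AddSubmonoid ℕ) : ℕ := etaW (fun g : gens S => (g : ℕ))

end Pool.Agent.R379.NS
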