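import Pool.Agent.R379.NS.Main

set_option autoImplicit false

namespace Pool.Agent.R379.NS

open Finsupp

/-- the semigroup generated by the weights -/
noncomputable def Sg {κ : Type} (w : κ → ℕ) : AddSubmonoid ℕ := AddMonoidHom.mrange (phi w)

theorem mem_Sg {κ : Type} (w : κ → ℕ) (n : ℕ) : n ∈ Sg w ↔ ∃ a, phi w a = n :=
  AddMonoidHom.mem_mrange

theorem bound (T : AddSubmonoid ℕ) (hT : IsNumSgp T) :
    eta T ≤ (mult T + 1) ^ (embDim T) := by
  obtain ⟨w', W, h, _⟩ := exists_win T hT
  have : Fintype (gens T) := (gens_finite hT).fintype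
  have h1 : eta T ≤ (Bs (⟨mult T, mult_gens hT⟩ : gens T) W).ncard := by
    refine (etaW_le _ _ ((h.Bs_finite).image _) h.isPres).trans ?_
    exact Set.ncard_image_le h.Bs_finite
  refine h1.trans (h.Bs_card.trans ?_)
  rw [embDim, ← Nat.card_coe_set_eq, Nat.card_eq_fintype_card]

theorem exists_generic (T : AddSubmonoid ℕ) (hT : IsNumSgp T) :
    ∃ S : AddSubmonoid ℕ, IsNumSgp S ∧ embDim S = embDim T ∧ mult S = mult T ∧
      eta T ≤ eta S ∧
      ∀ n ∈ Ap S, ∃! a : gens S →₀ ℕ, phi (fun g : gens S => (g : ℕ)) a = n := by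
  classical
  obtain ⟨w', W, h, hww'⟩ := exists_win T hT
  have hft : Fintype (gens T) := (gens_finite hT).fintype
  set m := mult T with hm
  have hm0 : 0 < m := mult_pos hT
  set k0 : gens T := ⟨m, mult_gens hT⟩ with hk0
  set w : gens T → ℕ := fun g => (g : ℕ) with hw
  have hwpos : ∀ i, 0 < w i := fun i => Nat.pos_of_ne_zero i.2.2.1
  have hwm : ∀ i, m ≤ w i := fun i => mult_le i.2.1 i.2.2.1
  have hw'm : ∀ i, m ≤ w' i := fun i => (hwm i).trans (hww' i)
  have hw'pos : ∀ i, 0 < w' i := fun i => lt_of_lt_of_le hm0 (hw'm i)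
  have hw'lt : ∀ i, i ≠ k0 → m < w' i := by
    intro i hi
    have h1 : m ≠ w i := by
      intro he
      apply hi
      exact Subtype.ext he.symm
    have := hwm i
    have := hww' i
    have h2 : w i = (i : ℕ) := rfl
    omega
  -- singles are winners
  have hsw : ∀ i, i ≠ k0 → single i 1 = W (single i 1) := by
    intro i hi
    obtain ⟨t, ht⟩ := h.hle (single i 1)
    have h1 : phi w (single i 1) = w i := by rw [phi_single, one_mul]
    have ht0 : t = 0 := by
      by_contra hc
      obtain ⟨s, rfl⟩ := Nat.exists_eq_succ_of_ne_zero hc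
      have h2 : phi w (W (single i 1)) + s * m ∈ T := by
        apply T.add_mem
        · exact phi_mem _
        · rw [← smul_eq_mul]; exact T.nsmul_mem (mult_mem hT).1 s
      have h3 : (phi w (W (single i 1)) + s * m) + m = w i := by
        rw [← h1, ht, ← hm, Nat.succ_mul, add_assoc]
      rcases i.2.2.2 _ h2 m (mult_mem hT).1 h3 with h4 | h4
      · rw [h4, zero_add] at h3
        exact hi (Subtype.ext h3.symm)
      · omega
    rw [ht0, zero_mul, add_zero, h1] at ht
    have h2 : W (single i 1) ≠ 0 := by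
      intro h0
      rw [h0, map_zero] at ht
      exact (hwpos i).ne' ht
    obtain ⟨j, b, hb⟩ := exists_single_add _ h2
    rw [hb, map_add, phi_single, one_mul] at ht
    rcases i.2.2.2 (w j) j.2.1 (phi w b) (phi_mem b) ht.symm with h3 | h3
    · exact absurd h3 (hwpos j).ne'
    · have hb0 := phi_eq_zero w hwpos b h3
      rw [h3, add_zero] at ht
      have : i = j := Subtype.ext ht
      rw [hb, hb0, add_zero, this]
  set S := Sg w' with hS
  have hmemS : ∀ n, n ∈ S ↔ ∃ a, phi w' a = n := fun n => mem_Sg w' n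
  have hge : ∀ n ∈ S, n ≠ 0 → m ≤ n := by
    intro n hn h0
    obtain ⟨a, rfl⟩ := (hmemS n).1 hn
    have ha : a ≠ 0 := by rintro rfl; exact h0 (map_zero _)
    obtain ⟨i, b, hb⟩ := exists_single_add a ha
    rw [hb, map_add, phi_single, one_mul]
    have := hw'm i
    omega
  have hmS : m ∈ S := (hmemS m).2 ⟨single k0 1, by rw [phi_single, one_mul, h.hw0']⟩
  have hSnum : IsNumSgp S := by
    obtain ⟨C, hC⟩ := exists_large hT
    -- for every residue a winner
    have h1 : ∀ r : ℕ, ∃ D, D ∈ S ∧ D ≡ r [MOD m] := by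
      intro r
      have h2 : C * m + r ∈ T := hC _ (by nlinarith)
      obtain ⟨a, ha⟩ := factor _ h2
      refine ⟨phi w' a, (hmemS _).2 ⟨a, rfl⟩, ?_⟩
      refine (h.hres a).symm.trans ?_
      have : phi w a = C * m + r := ha
      rw [this]
      exact Nat.mul_add_mod_self_right _ _ _
    choose D hD hDr using h1
    apply (Set.finite_Iio (∑ r ∈ Finset.range m, D r)).subset
    intro n hn
    rw [Set.mem_Iio]
    by_contra hc
    push Not at hc
    apply hn
    have hr : n % m < m := Nat.mod_lt _ hm0
    have h2 : D (n % m) ≤ n :=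
      (Finset.single_le_sum (f := D) (fun _ _ => Nat.zero_le _) (Finset.mem_range.2 hr)).trans hc
    have h3 : D (n % m) ≡ n [MOD m] := (hDr (n % m)).trans (Nat.mod_modEq n m)
    obtain ⟨t, ht⟩ := (Nat.modEq_iff_dvd' h2).1 h3
    have h4 : n = D (n % m) + t • m := by
      rw [smul_eq_mul, mul_comm]; omega
    rw [h4]
    exact S.add_mem (hD _) (S.nsmul_mem hmS t)
  have hmultS : mult S = m := by
    apply le_antisymm
    · exact Nat.sInf_le ⟨hmS, hm0.ne'⟩
    · exact hge _ (mult_mem hSnum).1 (mult_mem hSnum).2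
  -- the generators
  have hgens : gens S = Set.range w' := by
    ext n
    constructor
    · rintro ⟨hn, h0, hat⟩
      obtain ⟨a, rfl⟩ := (hmemS n).1 hn
      have ha : a ≠ 0 := by rintro rfl; exact h0 (map_zero _)
      obtain ⟨i, b, hb⟩ := exists_single_add a ha
      have h1 : w' i + phi w' b = phi w' a := by rw [hb, map_add, phi_single, one_mul]
      rcases hat (w' i) ((hmemS _).2 ⟨single i 1, by rw [phi_single, one_mul]⟩) (phi w' b)
        ((hmemS _).2 ⟨b, rfl⟩) h1 with h2 | h2
      · exact absurd h2 (hw'pos i).ne'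
      · exact ⟨i, by rw [← h1, h2, add_zero]⟩
    · rintro ⟨i, rfl⟩
      refine ⟨(hmemS _).2 ⟨single i 1, by rw [phi_single, one_mul]⟩, (hw'pos i).ne', ?_⟩
      intro x hx y hy hxy
      by_cases hi : i = k0
      · by_contra hc
        push Not at hc
        have h1 := hge x hx hc.1
        have h2 := hge y hy hc.2
        rw [hi, h.hw0'] at hxy
        omega
      · obtain ⟨a, rfl⟩ := (hmemS x).1 hx
        obtain ⟨b, rfl⟩ := (hmemS y).1 hy
        have h1 : phi w' (single i 1) = phi w' (a + b) := by
          rw [map_add, hxy, phi_single, one_mul]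
        have h2 := h.uniq _ _ (hsw i hi) h1
        by_contra hc
        push Not at hc
        have ha : a ≠ 0 := by rintro rfl; exact hc.1 (map_zero _)
        have hb : b ≠ 0 := by rintro rfl; exact hc.2 (map_zero _)
        obtain ⟨j, a', ha'⟩ := exists_single_add a ha
        obtain ⟨k, b', hb'⟩ := exists_single_add b hb
        have h3 : phi (fun _ => 1) (single i 1) = phi (fun _ => 1) (a + b) := by rw [h2]
        rw [ha', hb', map_add, map_add, map_add, phi_single, phi_single, phi_single] at h3
        omega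
  have hinj : Function.Injective w' := by
    intro i j hij
    by_cases hi : i = k0
    · by_cases hj : j = k0
      · rw [hi, hj]
      · have := hw'lt j hj
        rw [hi, h.hw0'] at hij
        omega
    · have h1 : phi w' (single i 1) = phi w' (single j 1) := by
        rw [phi_single, phi_single, hij]
      have h2 := h.uniq _ _ (hsw i hi) h1
      exact Finsupp.single_left_injective one_ne_zero h2
  let f : gens T ≃ gens S := (Equiv.ofInjective w' hinj).trans (Equiv.setCongr hgens.symm)
  have hf : ∀ i, ((f i : gens S) : ℕ) = w' i := fun i => rfl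
  have hembS : embDim S = embDim T := by
    unfold embDim
    rw [← Nat.card_coe_set_eq, ← Nat.card_coe_set_eq]
    exact (Nat.card_congr f).symm
  refine ⟨S, hSnum, hembS, hmultS, ?_, ?_⟩
  · have h1 : eta T ≤ (Bs k0 W).ncard := by
      refine (etaW_le _ _ ((h.Bs_finite).image _) h.isPres).trans ?_
      exact Set.ncard_image_le h.Bs_finite
    refine h1.trans ?_
    apply le_etaW
    · obtain ⟨w2, W2, h2, _⟩ := exists_win S hSnum
      have : Finite (gens S) := (gens_finite hSnum).to_subtype
      exact ⟨_, (h2.Bs_finite).image _, h2.isPres⟩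
    · intro ρ hρf hρ
      have h2 := isPres_transfer _ f.symm w' (fun i => by rw [← hf]; simp) ρ hρ
      exact (h.lower _ (hρf.image _) h2).trans (Set.ncard_image_le hρf)
  · intro n hn
    have hn2 : ∀ t ∈ S, t + m ≠ n := by
      intro t ht
      have := hn.2 t ht
      rwa [hmultS] at this
    have hwin : ∀ a, phi w' a = n → a = W a := by
      intro a ha
      have ha0 : a k0 = 0 := by
        by_contra hc
        obtain ⟨s, hs⟩ := Nat.exists_eq_succ_of_ne_zero hc
        have h1 := phi_erase w' k0 a
        rw [hs, h.hw0', ha] at h1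
        apply hn2 (s * m + phi w' (a.erase k0))
        · apply S.add_mem
          · rw [← smul_eq_mul]; exact S.nsmul_mem hmS s
          · exact (hmemS _).2 ⟨_, rfl⟩
        · rw [h1]; rw [Nat.succ_mul]; ring
      by_contra hc
      have h1 := h.hlt a ha0 hc
      have hmod : phi w' (W a) ≡ phi w' a [MOD m] := by
        refine (h.hres _).symm.trans (Nat.ModEq.trans ?_ (h.hres _))
        obtain ⟨t, ht⟩ := h.hle a
        rw [ht]
        exact (Nat.add_mul_mod_self_right _ _ _).symm
      obtain ⟨t, ht⟩ := (Nat.modEq_iff_dvd' h1.le).1 hmod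
      have ht0 : t ≠ 0 := by
        rintro rfl
        omega
      obtain ⟨s, rfl⟩ := Nat.exists_eq_succ_of_ne_zero ht0
      apply hn2 (phi w' (W a) + s • m)
      · exact S.add_mem ((hmemS _).2 ⟨_, rfl⟩) (S.nsmul_mem hmS s)
      · rw [← ha, smul_eq_mul, mul_comm s m]
        rw [Nat.mul_succ] at ht
        omega
    have hval : ∀ x : gens S →₀ ℕ, phi w' (Finsupp.domCongr f.symm x)
        = phi (fun g : gens S => (g : ℕ)) x := by
      intro x
      exact phi_domCongr _ f.symm w' (fun i => by rw [← hf]; simp) x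
    obtain ⟨a, ha⟩ := (hmemS n).1 hn.1
    refine ⟨Finsupp.domCongr f a, ?_, ?_⟩
    · simp only
      rw [phi_domCongr w' f _ hf, ha]
    · intro y hy
      rw [← hval] at hy
      have h1 : a = Finsupp.domCongr f.symm y := h.uniq _ _ (hwin a ha) (by rw [ha, hy])
      rw [h1]
      ext i
      simp

/-- existence for all admissible pairs -/
theorem exists_sgp (e m : ℕ) (h : (e = 1 ∧ m = 1) ∨ (2 ≤ e ∧ e ≤ m)) :
    ∃ S : AddSubmonoid ℕ, IsNumSgp S ∧ embDim S = e ∧ mult S = m := by
  classical
  have hm0 : 0 < m := by omega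
  let S := AddSubmonoid.closure (Set.Ico m (m + e))
  have hsub : ∀ n ∈ Set.Ico m (m + e), n ∈ S := fun n hn => AddSubmonoid.subset_closure hn
  have hmS : m ∈ S := hsub m ⟨le_refl _, by omega⟩
  have hge : ∀ n ∈ S, n = 0 ∨ m ≤ n := by
    intro n hn
    refine AddSubmonoid.closure_induction (motive := fun n _ => n = 0 ∨ m ≤ n) ?_ ?_ ?_ hn
    · intro x hx; exact Or.inr hx.1
    · exact Or.inl rfl
    · intro x y _ _ hx hy
      omega
  have hbig : ∀ n, m * m ≤ n → n ∈ S := by
    intro n hn
    have h1 : n = (n % m) * (m + 1) + (n / m - n % m) * m := by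
      have h2 := Nat.div_add_mod n m
      have h3 : n % m < m := Nat.mod_lt _ hm0
      have h4 : m ≤ n / m := (Nat.le_div_iff_mul_le hm0).2 hn
      obtain ⟨k, hk⟩ := Nat.exists_eq_add_of_le (h3.le.trans h4)
      rw [hk, Nat.add_sub_cancel_left]
      rw [hk] at h2
      nlinarith
    rw [h1]
    apply S.add_mem
    · by_cases he : 2 ≤ e
      · rw [← smul_eq_mul]
        exact S.nsmul_mem (hsub _ ⟨by omega, by omega⟩) _
      · have hm1 : m = 1 := by omega
        rw [hm1, Nat.mod_one, zero_mul]
        exact S.zero_mem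
    · rw [← smul_eq_mul]
      exact S.nsmul_mem hmS _
  have hnum : IsNumSgp S := by
    apply (Set.finite_Iio (m * m)).subset
    intro n hn
    rw [Set.mem_Iio]
    by_contra hc
    exact hn (hbig n (by omega))
  have hmult : mult S = m := by
    apply le_antisymm
    · exact Nat.sInf_le ⟨hmS, hm0.ne'⟩
    · have h1 := mult_mem hnum
      rcases hge _ h1.1 with h2 | h2
      · exact absurd h2 h1.2
      · exact h2
  have hgens : gens S = Set.Ico m (m + e) := by
    ext n
    constructor
    · rintro ⟨hn, h0, hat⟩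
      have : ∀ n (_ : n ∈ S), n = 0 ∨ n ∈ Set.Ico m (m + e) ∨
          ∃ a ∈ S, ∃ b ∈ S, a + b = n ∧ a ≠ 0 ∧ b ≠ 0 := by
        intro n hn
        refine AddSubmonoid.closure_induction (motive := fun n _ => n = 0 ∨ n ∈ Set.Ico m (m + e) ∨
          ∃ a ∈ S, ∃ b ∈ S, a + b = n ∧ a ≠ 0 ∧ b ≠ 0) ?_ ?_ ?_ hn
        · intro x hx; exact Or.inr (Or.inl hx)
        · exact Or.inl rfl
        · intro x y hx hy ihx ihy
          by_cases hx0 : x = 0
          · subst hx0; rw [zero_add]; exact ihy
          by_cases hy0 : y = 0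
          · subst hy0; rw [add_zero]; exact ihx
          exact Or.inr (Or.inr ⟨x, hx, y, hy, rfl, hx0, hy0⟩)
      rcases this n hn with h1 | h1 | ⟨a, ha, b, hb, hab, ha0, hb0⟩
      · exact absurd h1 h0
      · exact h1
      · rcases hat a ha b hb hab with h2 | h2
        · exact absurd h2 ha0
        · exact absurd h2 hb0
    · intro hn
      refine ⟨hsub n hn, ?_, ?_⟩
      · have := hn.1; omega
      · intro a ha b hb hab
        by_contra hc
        push Not at hc
        have h1 := hge a ha
        have h2 := hge b hb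
        have h3 := hn.2
        omega
  refine ⟨S, hnum, ?_, hmult⟩
  unfold embDim
  rw [hgens, Set.ncard_eq_toFinset_card']
  simp

end Pool.Agent.R379.NS
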