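import Pool.Agent.R379.NS.Abs

set_option autoImplicit false

namespace Pool.Agent.R379.NS

open Finsupp

theorem exists_min {α : Type} (f : α → ℕ) (s : Set α) (hs : s.Nonempty) :
    ∃ b ∈ s, ∀ b' ∈ s, f b ≤ f b' := by
  obtain ⟨b, hb, h⟩ := WellFounded.has_min (measure f).wf s hs
  exact ⟨b, hb, fun b' hb' => not_lt.1 (h b' hb')⟩

section sgp
variable {T : AddSubmonoid ℕ}

theorem exists_large (hT : IsNumSgp T) : ∃ C, ∀ n, C ≤ n → n ∈ T := by
  obtain ⟨C, hC⟩ := hT.bddAbove
  refine ⟨C + 1, fun n hn => ?_⟩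
  by_contra h
  have := hC h
  omega

theorem nonzero_nonempty (hT : IsNumSgp T) : {n | n ∈ T ∧ n ≠ 0}.Nonempty := by
  obtain ⟨C, hC⟩ := exists_large hT
  exact ⟨C + 1, hC _ (by omega), by omega⟩

theorem mult_mem (hT : IsNumSgp T) : mult T ∈ T ∧ mult T ≠ 0 := Nat.sInf_mem (nonzero_nonempty hT)

theorem mult_pos (hT : IsNumSgp T) : 0 < mult T := Nat.pos_of_ne_zero (mult_mem hT).2

theorem mult_le {n : ℕ} (h : n ∈ T) (h0 : n ≠ 0) : mult T ≤ n := Nat.sInf_le ⟨h, h0⟩

theorem mult_gens (hT : IsNumSgp T) : mult T ∈ gens T := by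
  refine ⟨(mult_mem hT).1, (mult_mem hT).2, fun a ha b hb hab => ?_⟩
  by_contra hc
  push Not at hc
  have h1 := mult_le ha hc.1
  have h2 := mult_le hb hc.2
  have := mult_pos hT
  omega

theorem gens_mod (hT : IsNumSgp T) {a b : ℕ} (ha : a ∈ gens T) (hb : b ∈ gens T)
    (h : a ≡ b [MOD mult T]) : a = b := by
  wlog hab : a ≤ b generalizing a b
  · exact (this hb ha h.symm (by omega)).symm
  obtain ⟨t, ht⟩ := (Nat.modEq_iff_dvd' hab).1 h
  by_contra hne
  have ht0 : 0 < t := by
    rcases Nat.eq_zero_or_pos t with h0 | h0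
    · subst h0; omega
    · exact h0
  have h1 := hb.2.2 a ha.1 (mult T * t)
    (by
      have := T.nsmul_mem (mult_mem hT).1 t
      rwa [smul_eq_mul, mul_comm] at this) (by omega)
  rcases h1 with h1 | h1
  · exact ha.2.1 h1
  · have := mult_pos hT
    have := Nat.mul_pos this ht0
    omega

theorem gens_finite (hT : IsNumSgp T) : (gens T).Finite := by
  apply Set.Finite.of_injOn (f := fun a => a % mult T) (t := Set.Iio (mult T))
  · intro a _
    exact Nat.mod_lt _ (mult_pos hT)
  · intro a ha b hb hab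
    exact gens_mod hT ha hb hab
  · exact Set.finite_Iio _

theorem factor (n : ℕ) (hn : n ∈ T) : ∃ a : gens T →₀ ℕ, phi (fun g : gens T => (g : ℕ)) a = n := by
  induction n using Nat.strong_induction_on with
  | _ n ih =>
    by_cases h0 : n = 0
    · exact ⟨0, by simp [h0]⟩
    by_cases hg : n ∈ gens T
    · exact ⟨single ⟨n, hg⟩ 1, by rw [phi_single]; simp⟩
    · have : ∃ a ∈ T, ∃ b ∈ T, a + b = n ∧ a ≠ 0 ∧ b ≠ 0 := by
        by_contra hc
        push Not at hc
        apply hg
        refine ⟨hn, h0, fun a ha b hb hab => ?_⟩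
        by_cases ha0 : a = 0
        · exact Or.inl ha0
        · exact Or.inr (hc a ha b hb hab ha0)
      obtain ⟨a, ha, b, hb, hab, ha0, hb0⟩ := this
      obtain ⟨x, hx⟩ := ih a (by omega) ha
      obtain ⟨y, hy⟩ := ih b (by omega) hb
      exact ⟨x + y, by rw [map_add, hx, hy, hab]⟩

theorem phi_mem (a : gens T →₀ ℕ) : phi (fun g : gens T => (g : ℕ)) a ∈ T := by
  simp only [phi, LinearMap.toAddMonoidHom_coe, linearCombination_apply, Finsupp.sum]
  apply T.sum_mem
  intro i _
  exact T.nsmul_mem i.2.1 _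

end sgp

/-- a nonzero finitely supported function is a unit vector plus something -/
theorem exists_single_add {κ : Type} (a : κ →₀ ℕ) (h : a ≠ 0) :
    ∃ (i : κ) (b : κ →₀ ℕ), a = single i 1 + b := by
  obtain ⟨i, hi⟩ := Finsupp.support_nonempty_iff.2 h
  have h1 : single i 1 ≤ a := by
    rw [Finsupp.single_le_iff]
    have := Finsupp.mem_support_iff.1 hi
    omega
  obtain ⟨b, hb⟩ := exists_add_of_le h1
  exact ⟨i, b, hb⟩

theorem phi_eq_zero {κ : Type} (w : κ → ℕ) (hw : ∀ i, 0 < w i) (a : κ →₀ ℕ)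
    (h : phi w a = 0) : a = 0 := by
  by_contra hc
  obtain ⟨i, b, hb⟩ := exists_single_add a hc
  rw [hb, map_add, phi_single] at h
  have := hw i
  omega

theorem phi_fintype {κ : Type} [Fintype κ] (w : κ → ℕ) (a : κ →₀ ℕ) :
    phi w a = ∑ i, a i * w i := by
  simp only [phi, LinearMap.toAddMonoidHom_coe, linearCombination_apply]
  rw [Finsupp.sum_fintype _ _ (by simp)]
  simp

/-- uniqueness of digits -/
theorem digits_uniq {κ : Type} [Fintype κ] (e : κ ≃ Fin (Fintype.card κ)) (L : ℕ)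
    (a b : κ →₀ ℕ) (ha : ∀ i, a i < L) (hb : ∀ i, b i < L)
    (h : phi (fun i => L ^ (e i : ℕ)) a = phi (fun i => L ^ (e i : ℕ)) b) : a = b := by
  rw [phi_fintype, phi_fintype] at h
  let f : Fin (Fintype.card κ) → Fin L := fun j => ⟨a (e.symm j), ha _⟩
  let g : Fin (Fintype.card κ) → Fin L := fun j => ⟨b (e.symm j), hb _⟩
  have hf : (finFunctionFinEquiv f : ℕ) = ∑ i, a i * L ^ (e i : ℕ) := by
    rw [finFunctionFinEquiv_apply]
    rw [← Equiv.sum_comp e]
    apply Finset.sum_congr rfl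
    intro i _
    simp [f]
  have hg : (finFunctionFinEquiv g : ℕ) = ∑ i, b i * L ^ (e i : ℕ) := by
    rw [finFunctionFinEquiv_apply]
    rw [← Equiv.sum_comp e]
    apply Finset.sum_congr rfl
    intro i _
    simp [g]
  have hfg : f = g := by
    apply finFunctionFinEquiv.injective
    apply Fin.ext
    rw [hf, hg, h]
  ext i
  have := congrFun hfg (e i)
  simpa [f, g] using this

/-- the generic perturbation -/
theorem exists_win (T : AddSubmonoid ℕ) (hT : IsNumSgp T) :
    ∃ (w' : gens T → ℕ) (W : (gens T →₀ ℕ) → (gens T →₀ ℕ)),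
      Win (⟨mult T, mult_gens hT⟩ : gens T) (mult T) (fun g : gens T => (g : ℕ)) w' W ∧
      ∀ i : gens T, (i : ℕ) ≤ w' i := by
  classical
  have : Fintype (gens T) := (gens_finite hT).fintype
  obtain ⟨C, hC⟩ := exists_large hT
  set m := mult T with hm
  have hm0 : 0 < m := mult_pos hT
  set k0 : gens T := ⟨m, mult_gens hT⟩ with hk0
  set w : gens T → ℕ := fun g => (g : ℕ) with hw
  have hwpos : ∀ i, 0 < w i := fun i => Nat.pos_of_ne_zero i.2.2.1
  have hwk0 : w k0 = m := rfl
  let e := Fintype.equivFin (gens T)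
  set L := C * m + m + 1 with hL
  set v : gens T → ℕ := fun i => L ^ (e i : ℕ) with hv
  set N := L * ∑ i, v i with hN
  set w'' : gens T → ℕ := fun i => (m * N + 1) * w i + m * v i with hw''
  set w' : gens T → ℕ := Function.update w'' k0 m with hw'
  have hw'k0 : w' k0 = m := by simp [hw']
  have hpure : ∀ b : gens T →₀ ℕ, b k0 = 0 → phi w' b = (m * N + 1) * phi w b + m * phi v b := by
    intro b hb
    rw [← phi_linear]
    apply phi_congr_pure _ _ k0 _ _ hb
    intro i hi
    simp [hw', Function.update_of_ne hi, hw'']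
  have hres : ∀ a : gens T →₀ ℕ, phi w a ≡ phi w' a [MOD m] := by
    intro a
    rw [phi_erase w k0 a, phi_erase w' k0 a, hwk0, hw'k0, hpure _ Finsupp.erase_same]
    apply Nat.ModEq.add_left
    have : (m * N + 1) * phi w (a.erase k0) + m * phi v (a.erase k0)
        = phi w (a.erase k0) + m * (N * phi w (a.erase k0) + phi v (a.erase k0)) := by ring
    rw [this]
    unfold Nat.ModEq
    simp
  let Ws : ℕ → Set (gens T →₀ ℕ) := fun r => {b | b k0 = 0 ∧ phi w b % m = r}
  have hexm : ∀ r, (Ws r).Nonempty → ∃ b ∈ Ws r, ∀ b' ∈ Ws r, phi w' b ≤ phi w' b' :=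
    fun r hr => exists_min (fun b => phi w' b) (Ws r) hr
  let W : (gens T →₀ ℕ) → (gens T →₀ ℕ) := fun a =>
    if h : (Ws (phi w a % m)).Nonempty then (hexm _ h).choose else 0
  have herase : ∀ a : gens T →₀ ℕ, a.erase k0 ∈ Ws (phi w a % m) := by
    intro a
    refine ⟨Finsupp.erase_same, ?_⟩
    conv_rhs => rw [phi_erase w k0 a, hwk0]
    simp
  have hWmem : ∀ a, W a ∈ Ws (phi w a % m) := by
    intro a
    have h : (Ws (phi w a % m)).Nonempty := ⟨_, herase a⟩
    simp only [W, dif_pos h]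
    exact (hexm _ h).choose_spec.1
  have hWmin : ∀ a, ∀ b' ∈ Ws (phi w a % m), phi w' (W a) ≤ phi w' b' := by
    intro a
    have h : (Ws (phi w a % m)).Nonempty := ⟨_, herase a⟩
    simp only [W, dif_pos h]
    exact (hexm _ h).choose_spec.2
  -- small representative
  have hsmall : ∀ a : gens T →₀ ℕ, ∃ b1 ∈ Ws (phi w a % m), phi w b1 < L ∧
      ∀ b' ∈ Ws (phi w a % m), phi w b1 ≤ phi w b' := by
    intro a
    obtain ⟨b1, hb1, hmin⟩ := exists_min (fun b => phi w b) (Ws (phi w a % m)) ⟨_, herase a⟩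
    refine ⟨b1, hb1, ?_, hmin⟩
    set r := phi w a % m with hr
    have hrm : r < m := Nat.mod_lt _ hm0
    have hn : C * m + r ∈ T := hC _ (by nlinarith)
    obtain ⟨c, hc⟩ := factor _ hn
    have h1 : c.erase k0 ∈ Ws r := by
      have := herase c
      have h2 : phi w c % m = r := by
        rw [hc, Nat.mul_add_mod_self_right, Nat.mod_eq_of_lt hrm]
      rwa [h2] at this
    have h2 := hmin _ h1
    have h3 := phi_erase w k0 c
    have h4 : phi w c = C * m + r := hc
    omega
  have hbd : ∀ b : gens T →₀ ℕ, phi w b < L → ∀ i, b i < L := by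
    intro b hb i
    have h1 := le_phi w b i
    have h2 := hwpos i
    nlinarith
  have hvbd : ∀ b : gens T →₀ ℕ, phi w b < L → phi v b ≤ N := by
    intro b hb
    rw [phi_fintype, hN, Finset.mul_sum]
    apply Finset.sum_le_sum
    intro i _
    exact Nat.mul_le_mul_right _ (hbd b hb i).le
  -- a w'-minimal element is w-minimal
  have hmin : ∀ a : gens T →₀ ℕ, ∀ b ∈ Ws (phi w a % m),
      (∀ b' ∈ Ws (phi w a % m), phi w' b ≤ phi w' b') →
      ∀ b' ∈ Ws (phi w a % m), phi w b ≤ phi w b' := by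
    intro a b hb hbm
    obtain ⟨b1, hb1, hb1L, hb1m⟩ := hsmall a
    have h1 := hbm b1 hb1
    have h2 := hb1m b hb
    suffices h : phi w b ≤ phi w b1 from fun b' hb' => h.trans (hb1m b' hb')
    by_contra hc
    push Not at hc
    have hmod : phi w b1 ≡ phi w b [MOD m] := by
      unfold Nat.ModEq; rw [hb1.2, hb.2]
    obtain ⟨t, ht⟩ := (Nat.modEq_iff_dvd' h2).1 hmod
    have ht0 : 0 < t := by
      rcases Nat.eq_zero_or_pos t with h0 | h0
      · subst h0; omega
      · exact h0
    have h3 : phi w b1 + m ≤ phi w b := by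
      have : m * 1 ≤ m * t := Nat.mul_le_mul_left _ ht0
      omega
    rw [hpure b hb.1, hpure b1 hb1.1] at h1
    have h4 := hvbd b1 hb1L
    have h5 : (m * N + 1) * (phi w b1 + m) ≤ (m * N + 1) * phi w b := Nat.mul_le_mul_left _ h3
    have h6 : m * phi v b1 ≤ m * N := Nat.mul_le_mul_left _ h4
    have h7 : m * N ≤ m * N * m := Nat.le_mul_of_pos_right _ hm0
    have h8 : (m * N + 1) * (phi w b1 + m) = (m * N + 1) * phi w b1 + m * N * m + m := by ring
    have h9 : 0 ≤ m * phi v b := Nat.zero_le _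
    omega
  have huniq : ∀ a : gens T →₀ ℕ, ∀ b ∈ Ws (phi w a % m), phi w' b = phi w' (W a) → b = W a := by
    intro a b hb he
    have h1 := hmin a b hb (fun b' hb' => by rw [he]; exact hWmin a b' hb')
    have h2 := hmin a (W a) (hWmem a) (hWmin a)
    obtain ⟨b1, hb1, hb1L, hb1m⟩ := hsmall a
    have h3 : phi w b = phi w (W a) := le_antisymm (h1 _ (hWmem a)) (h2 _ hb)
    have h4 : phi w b < L := lt_of_le_of_lt (h1 _ hb1) hb1L
    have h5 : phi w (W a) < L := by rw [← h3]; exact h4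
    rw [hpure b hb.1, hpure _ (hWmem a).1, h3] at he
    have h6 : phi v b = phi v (W a) := Nat.eq_of_mul_eq_mul_left hm0 (Nat.add_left_cancel he)
    exact digits_uniq e L b (W a) (hbd b h4) (hbd _ h5) h6
  refine ⟨w', W, ⟨hm0, hwk0, hw'k0, fun a => (hWmem a).1, ?_, ?_, hres, ?_⟩, ?_⟩
  · intro a
    have h1 := hmin a (W a) (hWmem a) (hWmin a) _ (herase a)
    have h2 := phi_erase w k0 a
    have h3 : phi w (W a) ≤ phi w a := by omega
    have hmod : phi w (W a) ≡ phi w a [MOD m] := (hWmem a).2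
    obtain ⟨t, ht⟩ := (Nat.modEq_iff_dvd' h3).1 hmod
    exact ⟨t, by rw [mul_comm t m]; omega⟩
  · intro a b hab
    have : phi w a % m = phi w b % m := hab
    simp only [W, this]
  · intro b hb hne
    have hbm : b ∈ Ws (phi w b % m) := ⟨hb, rfl⟩
    rcases (hWmin b b hbm).lt_or_eq with h | h
    · exact h
    · exact absurd (huniq b b hbm h.symm) hne
  · intro i
    by_cases hi : i = k0
    · rw [hi, hw'k0]
    · rw [hw', Function.update_of_ne hi, hw'']
      have : w i = (i : ℕ) := rfl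
      nlinarith [Nat.zero_le (m * N * w i), Nat.zero_le (m * v i)]

end Pool.Agent.R379.NS
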